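import Mathlib
import Pool.Agent.Helper61.Nodal.Main

/-!
The number of nodal domains of Neumann eigenfunctions of the square tends to infinity with the
eigenvalue.
-/

namespace Pool.Agent.Results.MP_65f45c_an.NodalCount

open Set Filter Topology

/-- The open square `Ω = (0,π)²`. -/
def Omega : Set (ℝ × ℝ) := Ioo 0 Real.pi ×ˢ Ioo 0 Real.pi

/-- The real Neumann eigenspace of `Ω` for `lam`: the span of the functions
`cos(px) cos(qy)` with `p, q ∈ ℕ`, `p² + q² = lam`. -/
def eigenspace (lam : ℝ) : Submodule ℝ (ℝ × ℝ → ℝ) :=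
  Submodule.span ℝ {f | ∃ p q : ℕ, (p : ℝ) ^ 2 + (q : ℝ) ^ 2 = lam ∧
    f = fun z => Real.cos (p * z.1) * Real.cos (q * z.2)}

/-- The nodal set: the closure of the set of zeros of `u` in `Ω`. -/
def nodalSet (u : ℝ × ℝ → ℝ) : Set (ℝ × ℝ) := closure {z | z ∈ Omega ∧ u z = 0}

/-- The number of nodal domains: the number of connected components of `Ω \ N(u)`. -/
noncomputable def nodalCount (u : ℝ × ℝ → ℝ) : ℕ∞ :=
  ENat.card (ConnectedComponents ↥(Omega \ nodalSet u))

theorem result (lam : ℕ → ℝ) (u : ℕ → ℝ × ℝ → ℝ) (hu : ∀ n, u n ∈ eigenspace (lam n))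
    (hne : ∀ n, u n ≠ 0) (hlam : Tendsto lam atTop atTop) :
    Tendsto (fun n => nodalCount (u n)) atTop (𝓝 ⊤) := by
  rw [ENat.tendsto_nhds_top_iff_natCast_lt]
  intro C
  obtain ⟨Λ, hΛ⟩ := Pool.Agent.Helper61.Nodal.main (C + 1)
  filter_upwards [hlam.eventually_gt_atTop Λ] with n hn
  have h := hΛ (lam n) hn (u n) (hu n) (hne n)
  refine lt_of_lt_of_le ?_ h
  exact_mod_cast Nat.lt_succ_self C

end Pool.Agent.Results.MP_65f45c_an.NodalCount
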